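import Pool.Agent.Q80.KT.Defs

/-!
# The largest critical Erdős–Rényi component: statements of the parts

Notation: `τ = tau n p`, `B(v) = ball G v r`, `∂B(v) = sph G v r`. Library for `Ex`: `Pool.Agent.Q287.SR.Cyl`
(`Ex_one`, `Ex_add`, `Ex_mul`, `Ex_sum`, `Ex_mono`, `Ex_nonneg`, `Ex_absent`, `Ex_present`, `sum_graph_prod`).
-/

open Finset MeasureTheory Filter Topology
open scoped Classical ENNReal NNReal

noncomputable section

namespace Pool.Agent.Q80.KT

open Pool.Agent.Q287.SR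

/-! ### A. Probability -/

/-- Independence of functions of disjoint sets of edges. `G ↔ (edges in D, edges off D)`; the weight is a product over
the pairs and splits; sum over both parts separately. (E.g. `Ex n p f = Σ_(T ⊆ pairs n) p^|T| (1-p)^(|pairs|-|T|)
f(fromEdgeSet T)`, and `T = T1 ∪ T2` with `T1 = T ∩ D`, `T2 = T \ D`.) -/
def S_IND : Prop := ∀ (n : ℕ) (p : ℝ) (D D' : Set (Sym2 (Fin n))) (f g : SimpleGraph (Fin n) → ℝ),
  DepOn D f → DepOn D' g → Disjoint D D' → Ex n p (fun G => f G * g G) = Ex n p f * Ex n p g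

/-- Symmetry: `G ↦ G.comap σ` is a bijection of the graphs that preserves the number of edges and the weight
(`erWeight` is a product over `pairs n`, permuted by `Sym2.map σ`). -/
def S_SYM : Prop := ∀ (n : ℕ) (p : ℝ) (σ : Equiv.Perm (Fin n)) (f : SimpleGraph (Fin n) → ℝ),
  Ex n p (fun G => f (G.comap σ)) = Ex n p f

/-- Consequences of `S_SYM` (take `σ` with `σ 0 = x`, `σ 1 = y`; distance, balls and reachability are transported by the
isomorphism `G.comap σ ≃g G`). -/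
def S_TAU : Prop := ∀ (n : ℕ) (p : ℝ), (∀ x y : Fin n, x ≠ y → Pr n p (fun G => G.Reachable x y) = tau n p) ∧
  ∀ (k : ℕ) (F : SimpleGraph (Fin k)) (u : Fin k) (r : ℕ) (v : Fin n),
    Ex n p (fun G => ind (BallIso F u G v r) * (sph G v r).card) = aN F u r n p

/-- Probability of a prescribed configuration on a set `D` of pairs: `sum_graph_prod` with
`a e = if e ∈ D ∧ e ∉ g then 0 else p`, `b e = if e ∈ D ∧ e ∈ g then 0 else 1 - p` (as in `Ex_absent`). -/
def S_CONF : Prop := ∀ (n : ℕ) (p : ℝ) (D : Finset (Sym2 (Fin n))) (g : SimpleGraph (Fin n)), D ⊆ pairs n →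
  Pr n p (fun G => ∀ e ∈ D, (e ∈ G.edgeSet ↔ e ∈ g.edgeSet)) =
    p ^ (D.filter fun e => e ∈ g.edgeSet).card * (1 - p) ^ (D.filter fun e => e ∉ g.edgeSet).card

/-- Overlap. `O = D ∩ D'`, `f` and `g` vanish unless all pairs of `O` are absent. Put `f'(G) = f(G minus O)`,
`g'(G) = g(G minus O)`; they depend on `D \ O`, `D' \ O`, `f = f' absent_O`, `g = g' absent_O`, so with `S_IND` and
`Ex_absent`: `Ex f = Ex f' (1-p)^|O|`, `Ex g = Ex g' (1-p)^|O|`, `Ex (f g) = Ex f' Ex g' (1-p)^|O|`. -/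
def S_OVL : Prop := ∀ (n : ℕ) (p : ℝ) (D D' : Set (Sym2 (Fin n))) (O : Finset (Sym2 (Fin n)))
  (f g : SimpleGraph (Fin n) → ℝ), O ⊆ pairs n → (∀ e ∈ pairs n, (e ∈ O ↔ e ∈ D ∧ e ∈ D')) → DepOn D f → DepOn D' g →
  (∀ G, f G ≠ 0 → ∀ e ∈ O, e ∉ G.edgeSet) → (∀ G, g G ≠ 0 → ∀ e ∈ O, e ∉ G.edgeSet) →
  Ex n p (fun G => f G * g G) * (1 - p) ^ O.card = Ex n p f * Ex n p g

/-! ### B. Exploration of balls -/

/-- The balls are determined by the explored pairs. If `G` and `G'` have the same edges on `DS S S'` with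
`S = ball G v r`, `S' = ball G v (r-1)`, then `ball G' v i = ball G v i` for all `i ≤ r`: by induction on `i`, a vertex at
distance `i + 1 ≤ r` is a neighbour of a vertex at distance `i ≤ r - 1`, i.e. in `S'`, and all pairs meeting `S'` are in
`DS S S'`. (Useful: `w ∈ ball G v (i+1) ↔ w ∈ ball G v i ∨ ∃ a ∈ ball G v i, G.Adj a w`.) Also no pair from `S'` to the
outside of `S` is an edge of `G`. -/
def S_DET : Prop := ∀ (n : ℕ) (G G' : SimpleGraph (Fin n)) (v : Fin n) (r : ℕ), 1 ≤ r →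
  (∀ e ∈ DS (ball G v r) (ball G v (r - 1)), (e ∈ G.edgeSet ↔ e ∈ G'.edgeSet)) →
  (∀ i, i ≤ r → ball G' v i = ball G v i) ∧ (∀ a ∈ ball G v (r - 1), ∀ b, G.Adj a b → b ∈ ball G v r)

/-- `f` times the indicator of `ball = S`, `ball (r-1) = S'` depends only on `DS S S'`: if `G` is in the event and `G'`
agrees with `G` on `DS S S'`, then `G'` is in the event by `S_DET` and `f G = f G'` (the pairs inside `S` are in `DS S S'`);
if neither is in the event both sides are `0`. -/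
def S_DEP : Prop := ∀ (n : ℕ) (v : Fin n) (r : ℕ) (f : SimpleGraph (Fin n) → ℝ) (S S' : Finset (Fin n)), 1 ≤ r →
  BM v r f → DepOn (DS S S') fun G => f G * ind (ball G v r = S ∧ ball G v (r - 1) = S')

/-- Functions of the ball. (1) `∂B = B_r \ B_(r-1)`. (2) the indicator of `BallIso` is a function of the ball: the same `φ`
works for `G'` (distances from `v` up to `r` only matter through membership in the ball: the condition on the range of `φ`
says `range φ = ball G v r`). -/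
def S_BM : Prop := ∀ (n : ℕ) (v : Fin n) (r : ℕ), 1 ≤ r → (∀ G, sph G v r = ball G v r \ ball G v (r - 1)) ∧
  (∀ (k : ℕ) (F : SimpleGraph (Fin k)) (u : Fin k), BM v r fun G => ind (BallIso F u G v r)) ∧
  BM v r fun G => ((ball G v r).card : ℝ)

/-- Last exit. If `w` is connected to `v` but not in the ball then some `x ∈ ∂B(v)` is connected to `w` inside
`(V \ B(v)) ∪ {x}`: take a walk from `v` to `w` and its last vertex `x` in `B(v)`; its successor is outside of `B(v)`, so `x`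
is not in `ball G v (r-1)`. (Induct on a walk from `w` backwards, or on `ReflTransGen`.) -/
def S_EXIT : Prop := ∀ (n : ℕ) (G : SimpleGraph (Fin n)) (v w : Fin n) (r : ℕ), 1 ≤ r → G.Reachable v w →
  w ∉ ball G v r → ∃ x ∈ sph G v r, RU ({y | y ∉ ball G v r} ∪ {x}) G x w

/-- Two-sided version: disjoint balls around `v` and `w`, `v` and `w` connected. Take a walk from `v` to `w`, its last vertex
`x` in `B(v)`, and then the first vertex `y` in `B(w)` after it; in between the walk is outside of both balls. The predecessor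
of `y` is not in `B(w)` so `y ∈ ∂B(w)`. -/
def S_EXIT2 : Prop := ∀ (n : ℕ) (G : SimpleGraph (Fin n)) (v w : Fin n) (r : ℕ), 1 ≤ r → G.Reachable v w →
  Disjoint (ball G v r) (ball G w r) → ∃ x ∈ sph G v r, ∃ y ∈ sph G w r,
    RU ({z | z ∉ ball G v r ∧ z ∉ ball G w r} ∪ {x, y}) G x y

/-- `RU U` depends only on the pairs inside `U`, is monotone in `U`, and implies reachability. -/
def S_RU : Prop := ∀ (n : ℕ) (x y : Fin n) (U : Set (Fin n)), (DepOn {e | ∀ a ∈ e, a ∈ U} fun G => ind (RU U G x y)) ∧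
  (∀ G, RU U G x y → G.Reachable x y) ∧ ∀ (U' : Set (Fin n)) (G : SimpleGraph (Fin n)), U ⊆ U' → RU U G x y → RU U' G x y

/-- One-sided bound. `Ex (f 1(w ∉ B, v ↔ w)) = Σ_(S,S') Ex (f 1(B = S, B_(r-1) = S') 1(w ∉ S) 1(v ↔ w))`, and by `S_EXIT`
this is at most `Σ_(S,S') Σ_(x ∈ S \ S') Ex (f 1(B = S, B_(r-1) = S') 1(RU ((V\S) ∪ {x}) x w))`. By `S_DEP`, `S_RU` the two
factors depend on `DS S S'` and on the pairs inside `(V \ S) ∪ {x}`, `x ∉ S'`, `S' ⊆ S`: disjoint sets of pairs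
(intersected with the non-diagonal pairs; add `∩ {e | ¬ e.IsDiag}`), so `S_IND` gives the product with
`Pr (RU ..) ≤ Pr (x ↔ w) = τ` (`S_TAU`, `x ≠ w`). Sum up: `|S \ S'| = |∂B|` (`S_BM`). -/
def S_ONE : Prop := ∀ (n : ℕ) (p : ℝ) (v w : Fin n) (r : ℕ) (f : SimpleGraph (Fin n) → ℝ), 0 ≤ p → p ≤ 1 → 1 ≤ r →
  (∀ G, 0 ≤ f G) → BM v r f →
  Ex n p (fun G => f G * ind (w ∉ ball G v r ∧ G.Reachable v w)) ≤
    Ex n p (fun G => f G * (sph G v r).card) * tau n p

/-- Two-sided bound. Sum over the values `S, S'` of the balls around `v` and `T, T'` around `w`, `S ∩ T = ∅`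
(`|S|, |T| ≤ M`). By `S_EXIT2` the left side is at most the sum over `x ∈ S \ S'`, `y ∈ T \ T'` of
`Ex (f_(SS') g_(TT') 1(RU ((V \ (S ∪ T)) ∪ {x,y}) x y))`, where `f_(SS') = f 1(B(v) = S, ..)` etc.; the last indicator depends
on pairs inside `(V \ (S ∪ T)) ∪ {x, y}` and the product `f g` on `DS S S' ∪ DS T T'` (disjoint, as `x, y` are different and
not in `S'`, `T'`), so it is `≤ Ex (f_(SS') g_(TT')) τ` (`S_IND`, `S_RU`, `S_TAU`; `x ≠ y`). By `S_OVL` with
`O = {pairs between S' and T'}` (`DS S S' ∩ DS T T'` for non-diagonal pairs; by `S_DET` there is no edge from `S'` to the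
outside of `S`), `Ex (f_(SS') g_(TT')) (1-p)^(|S'||T'|) = Ex f_(SS') Ex g_(TT')`, and `(1-p)^(M²) ≤ (1-p)^(|S'||T'|)`. -/
def S_TWO : Prop := ∀ (n : ℕ) (p : ℝ) (v w : Fin n) (r M : ℕ) (f g : SimpleGraph (Fin n) → ℝ), 0 ≤ p → p < 1 → 1 ≤ r →
  (∀ G, 0 ≤ f G) → (∀ G, 0 ≤ g G) → BM v r f → BM w r g → (∀ G, M < (ball G v r).card → f G = 0) →
  (∀ G, M < (ball G w r).card → g G = 0) →
  Ex n p (fun G => f G * g G * ind (Disjoint (ball G v r) (ball G w r) ∧ G.Reachable v w)) * (1 - p) ^ (M ^ 2) ≤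
    Ex n p (fun G => f G * (sph G v r).card) * Ex n p (fun G => g G * (sph G w r).card) * tau n p

/-! ### C. Moments -/

/-- Paths. (1) `|∂B_i(v)| ≤ #{injective paths of length i from v}`: a geodesic to each vertex; there are at most `n^i`
injective maps with `φ 0 = v` and each has all its `i` edges present with probability `p^i` (`Ex_present`, the edges of an
injective path are distinct). (2) the same with both end points fixed: `n^(i-1)` maps, `1 ≤ i`; `P(w ∈ B_r(v)) ≤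
Σ_(i ≤ r) P(dist = i)`. -/
def S_PATH : Prop := ∀ (n : ℕ) (p : ℝ) (v : Fin n) (i : ℕ), 0 ≤ p → p ≤ 1 →
  Ex n p (fun G => ((sph G v i).card : ℝ)) ≤ (n * p) ^ i ∧
  ∀ w : Fin n, w ≠ v → ∀ r : ℕ, Pr n p (fun G => w ∈ ball G v r) * n ≤ ∑ j ∈ Finset.range (r + 1), (n * p) ^ j

/-- Pairs of paths. `|∂B_i(v)| |∂B_j(v)|` counts pairs `(y, z)`, `dist(v,y) = i`, `dist(v,z) = j`. Take geodesics to `y` and
`z`; let `l` be the last common time at which they agree and replace the beginning of the second by that of the first: a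
common path of length `l`, then two paths of lengths `i - l`, `j - l`, and all vertices are distinct (vertices at different
times have different distance from `v`; at the same time `> l` they differ). So the number is at most `Σ_l` (number of
injective tripods with all `i + j - l` edges present), and `Ex ≤ Σ_(l ≤ min i j) (n p)^(i+j-l)` (`n^(i+j-l)` maps, `Ex_present`).
Under `n p ≤ 2` each term is at most `2^(i+j)` (or 1), so the bound `(i + j + 1) 2^(i+j)` is enough. -/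
def S_TRIP : Prop := ∀ (n : ℕ) (p : ℝ) (v : Fin n) (i j : ℕ), 0 ≤ p → p ≤ 1 → n * p ≤ 2 →
  Ex n p (fun G => ((sph G v i).card : ℝ) * (sph G v j).card) ≤ (i + j + 1) * 2 ^ (i + j)

/-! ### D. Asymptotic independence -/

/-- The squeeze. `v = 0`, `w = 1` (or any two vertices), `F(v)` = the event `BallIso F u G v r`, `a = aN F u r n p`,
`s = Ex |∂B| ≤ (np)^r` (`S_PATH`), `X(v) ∈ {F(v), not F(v)}`, `a(F) = a`, `a(F^c) = s - a`.
`C = Σ_(i ≤ r) (i+r+1) 2^(i+r)` bounds `Ex (|B| |∂B|)` (`S_TRIP`, `|B| = Σ_i |∂B_i|`).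
`Q(X,Y) := P(v ↔ w, B(v) ∩ B(w) = ∅, X(v), Y(w))`. (i) `Q(X,Y) ≤ P(.., |B(v)|, |B(w)| ≤ M) + P(.., |B(v)| > M) + P(.., |B(w)| > M)`,
the first is `≤ a(X) a(Y) τ (1-p)^(-M²)` (`S_TWO`), the others `≤ τ Ex (1(|B| > M) |∂B|) ≤ τ C / M` (`S_ONE`; disjoint balls
imply `w ∉ B(v)`). (ii) `Σ_(X,Y) Q(X,Y) ≥ τ - P(w ∈ ball G v (2r)) ≥ τ - (2r+1) 2^(2r)/n` (`S_PATH`; if the balls of radius `r`
meet and are connected then the distance is `≤ 2r`). As `Σ a(X)a(Y) = s² ≤ (np)^(2r) → 1`, `(1-p)^(-M²) → 1` and `n τ → ∞`,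
(i) and (ii) force `Q(X,Y)/τ = a(X)a(Y) + O(C/M) + o(1)` for each of the four pairs, and `s → 1`. Let `M → ∞`. Finally
`Ex (1(v↔w)(1_F(v) - a)(1_F(w) - a))` expands into these quantities and the part where the balls meet is `≤ (2r+1)2^(2r)/n = o(τ)`. -/
def S_SQ : Prop := ∀ (k : ℕ) (F : SimpleGraph (Fin k)) (u : Fin k) (r : ℕ) (p : ℕ → ℝ), 1 ≤ r →
  (∀ᶠ n in atTop, 0 ≤ p n ∧ p n < 1) → Tendsto (fun n : ℕ => (n : ℝ) * p n) atTop (𝓝 1) →
  Tendsto (fun n : ℕ => (n : ℝ) * tau n (p n)) atTop atTop → ∀ ε : ℝ, 0 < ε → ∀ᶠ n : ℕ in atTop, ∀ v w : Fin n, v ≠ w →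
  |Ex n (p n) (fun G => ind (G.Reachable v w) * ((ind (BallIso F u G v r) - aN F u r n (p n)) *
    (ind (BallIso F u G w r) - aN F u r n (p n))))| ≤ ε * tau n (p n)

/-! ### E. Upper bound for the susceptibility -/

/-- One step of the exploration: `x ∈ A` active, `J = N(x) ∩ U`. The vertices reached from `A` in `A ∪ U` are `x` and those
reached from `(A \ x) ∪ J` in `(A \ x) ∪ U` (a path from `A` through `x` continues after its last visit of `x` at a vertex
of `J` or of `A \ x`; conversely `J` is reached through `x`). -/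
def S_RCH : Prop := ∀ (n : ℕ) (A U : Finset (Fin n)) (x : Fin n) (G : SimpleGraph (Fin n)), x ∈ A → Disjoint A U →
  (rch A U G).card = 1 + (rch ((A.erase x) ∪ U.filter fun y => G.Adj x y) (U.filter fun y => ¬ G.Adj x y) G).card

/-- Supersolutions bound the expected number of reached vertices. Induction on `|A| + |U|` with `S_RCH`: for `J ⊆ U` the
event `N(x) ∩ U = J` depends on the pairs `{x, y}`, `y ∈ U` (probability `p^|J| (1-p)^(|U|-|J|)`, `S_CONF`), while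
`rch ((A \ x) ∪ J) (U \ J)` depends on the pairs inside `(A ∪ U) \ x` (`S_RU`); `S_IND`. Group the `J` by `|J| = j`
(`Finset.sum_powerset_apply_card`). If `A = ∅` nothing is reached. -/
def S_RREC : Prop := ∀ (n : ℕ) (p : ℝ) (H : ℕ → ℕ → ℝ), 0 ≤ p → p ≤ 1 → (∀ u, 0 ≤ H 0 u) →
  (∀ a u : ℕ, 1 ≤ a → a + u ≤ n →
    1 + ∑ j ∈ Finset.range (u + 1), (u.choose j : ℝ) * p ^ j * (1 - p) ^ (u - j) * H (a - 1 + j) (u - j) ≤ H a u) →
  ∀ A U : Finset (Fin n), Disjoint A U → Ex n p (fun G => ((rch A U G).card : ℝ)) ≤ H A.card U.card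

/-- The supersolution. `N = n^(1/3)`, `Λ = |λ|`, `b = K = 2Λ + 2`, `S0 = 2Λ + 4`, `S1 = 2Λ + 5`, `θ = b/N`, `s = (n - u)/N²`,
`H(a,u) = N a + N² g(s) (1 - e^(-θ a))`, `g(s) = 1 + K max(S1 - s, 0)`, `p = (1 + λ/N)/n`, `J ~ Bin(u, p)`,
`a' = a - 1 + J`, `s' = s + J/N²`. To show: `E[H(a,u) - H(a',u')] ≥ 1` for large `n`, `a ≥ 1`, `a + u ≤ n`.
(i) `N (a - E a') = N (1 - up) = s - λ + λ s/N ≥ s (1 - Λ/N) - Λ` (`up = (1 - s/N)(1 + λ/N)`).
(ii) `N² g(s) (E e^(-θa') - e^(-θa)) = N² g(s) e^(-θa) (e^θ E e^(-θJ) - 1)`, `E e^(-θJ) = (1 - p(1 - e^(-θ)))^u`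
(binomial theorem).
(iii) `N² E[(g(s) - g(s'))(1 - e^(-θa'))] ≥ 0` as `g` is nonincreasing.
Case `s ≥ S0`: (i) is `≥ s/2 - Λ ≥ 2` for `N ≥ 2Λ`; (ii) `≥ 0`: `E e^(-θJ) ≥ e^(-θ u p)` (Jensen, or
`(1-x)^u` with `1 - x ≥ e^(-x-x²)` when `s` is bounded, and for `s ≥ S0` use Jensen) and `up ≤ 1`; (iii) `≥ 0`.
Case `s < S0`: (ii): `ln(1 - px) ≥ -px - (px)²`, `x = 1 - e^(-θ) ≤ θ - θ²/2 + θ³/6`, so
`θ + u ln(1-px) ≥ θ(1-up) + up θ²/2 - up θ³/6 - u p² θ² ≥ (b/N²)(b/2 - Λ) - O(N^(-3)) ≥ b/(2N²)` for large `N`; hence (ii)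
`≥ g(s) e^(-θa) b/2 ≥ (Λ+1) e^(-θa)`. (iii): for `J ≥ 1`: `a' ≥ a`, `g(s) - g(s') ≥ K/N²` (`S1 - s ≥ 1 ≥ 1/N²`), and
`P(J ≥ 1) = 1 - (1-p)^u ≥ 1/2` for large `N` (`up → 1` uniformly), so (iii) `≥ (K/2)(1 - e^(-θa)) = (Λ+1)(1 - e^(-θa))`.
Total `≥ s(1 - Λ/N) - Λ + (Λ + 1) ≥ 1`. Finally `H(1, n-1) ≤ N + N² (1 + K S1) θ = N (1 + b (1 + K S1))`. -/
def S_SUPER : Prop := ∀ lam : ℝ, ∃ C : ℝ, 0 < C ∧ ∀ᶠ n : ℕ in atTop, ∃ H : ℕ → ℕ → ℝ, (∀ u, 0 ≤ H 0 u) ∧
  (∀ a u : ℕ, 1 ≤ a → a + u ≤ n →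
    1 + ∑ j ∈ Finset.range (u + 1), (u.choose j : ℝ) * pN lam n ^ j * (1 - pN lam n) ^ (u - j) * H (a - 1 + j) (u - j)
      ≤ H a u) ∧
  H 1 (n - 1) ≤ C * (n : ℝ) ^ ((1 : ℝ) / 3)

/-- Susceptibility: `rch {v} (V \ v) G = comp G v`, `E |comp G v| = 1 + (n-1) τ` (`S_TAU`); `S_RREC`, `S_SUPER`. -/
def S_UP : Prop := ∀ lam : ℝ, ∃ C : ℝ, 0 < C ∧ ∀ᶠ n : ℕ in atTop,
  (n : ℝ) * tau n (pN lam n) ≤ C * (n : ℝ) ^ ((1 : ℝ) / 3)

/-! ### F. Large tree components -/

/-- Expected number of tree components on a given vertex set of size `m ≥ 1`: `m^(m-2)` trees on `S` (Cayley: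
`Pool.Agent.TH272.WH.card_trees_eq`, used in `Pool.Agent.Q109.FV.All.card_trees`), each with the configuration on the pairs
meeting `S` prescribed: `m - 1` present, `C(m,2) - (m-1) + m(n-m)` absent (`S_CONF`). -/
def S_T1 : Prop := ∀ (n m : ℕ) (p : ℝ) (S : Finset (Fin n)), 1 ≤ m → S.card = m →
  Pr n p (fun G => TreeComp G S) =
    (m : ℝ) ^ (m - 2) * p ^ (m - 1) * (1 - p) ^ (m.choose 2 - (m - 1) + m * (n - m))

/-- Two tree components: `TreeComp G S` depends on the pairs meeting `S` and requires the pairs between `S` and `T` to be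
absent; `S_OVL` with `O` = the pairs between `S` and `T` (`|S||T|` of them). -/
def S_T2 : Prop := ∀ (n : ℕ) (p : ℝ) (S T : Finset (Fin n)), Disjoint S T →
  Pr n p (fun G => TreeComp G S ∧ TreeComp G T) * (1 - p) ^ (S.card * T.card) =
    Pr n p (fun G => TreeComp G S) * Pr n p (fun G => TreeComp G T)

/-- First moment of the number of tree components with between `k` and `2k` vertices, `k = ⌈δ n^(2/3)⌉`, `0 < δ ≤ 1`:
`Ex XT ≥ c δ^(-3/2)` with `c = c(λ) > 0`. For `m ∈ [k, 2k]` the expected number with `m` vertices is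
`C(n,m) m^(m-2) p^(m-1) (1-p)^(E)`, `E = C(m,2) - (m-1) + m(n-m) ≤ mn - m²/2`. With `N = n^(1/3)`, `m ≤ 4N²`:
`C(n,m) ≥ n^m/m! exp(-m²/(2n) - m³/(3n²) - ..)` (`ln(1-x) ≥ -x-x²` for `x ≤ 1/2`, `Σ_(i<m) i/n ≤ m²/(2n)`, `Σ i²/n² ≤ m³/(3n²)`),
`m! ≤ e √m (m/e)^m`, `p^(m-1) ≥ n^(-(m-1)) exp((m-1)(λ/N - λ²/N²))`, `(1-p)^E ≥ exp(-(p+p²)(mn - m²/2))`,
`p (mn - m²/2) = m - m²/(2n) + λm/N - λm²/(2nN)`. The exponents `±m`, `±m²/(2n)`, `±λm/N` cancel and the rest is bounded: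
the expected number is `≥ c n m^(-5/2)`. Sum over `k ≤ m ≤ 2k` (`k + 1` terms, `m ≤ 2k`): `≥ c n k (2k)^(-5/2)`, and
`k ≤ 2 δ n^(2/3)`. -/
def S_FIRST : Prop := ∀ lam : ℝ, ∃ c : ℝ, 0 < c ∧ ∀ δ : ℝ, 0 < δ → δ ≤ 1 → ∀ᶠ n : ℕ in atTop,
  c * δ ^ (-(3 : ℝ) / 2) ≤ Ex n (pN lam n) (XT n ⌈δ * (n : ℝ) ^ ((2 : ℝ) / 3)⌉₊)

/-- Second moment: `Ex XT² ≤ Ex XT + (Ex XT)² e^(η)` with `η = C δ²`. Two different components are disjoint, so
`XT² = XT + Σ_(S,T disjoint)` and by `S_T2`, `S_T1` (the probability `q_m` depends only on `m = |S|`) the sum is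
`Σ_(m,m') C(n,m) C(n-m,m') q_m q_m' (1-p)^(-m m')`, where `C(n-m,m')/C(n,m') ≤ (1 - m/n)^(m') ≤ e^(-m m'/n)` and
`(1-p)^(-mm') ≤ e^((p+p²) m m')`, so the ratio to `C(n,m) C(n,m') q_m q_m'` is
`≤ exp(m m' (|λ| n^(-4/3) + p²)) ≤ exp(16·(|λ|+1) δ²·..)` for `m, m' ≤ 2k ≤ 4 δ n^(2/3)` and large `n`. -/
def S_SECOND : Prop := ∀ lam : ℝ, ∃ C : ℝ, 0 < C ∧ ∀ δ : ℝ, 0 < δ → δ ≤ 1 → ∀ᶠ n : ℕ in atTop,
  Ex n (pN lam n) (fun G => XT n ⌈δ * (n : ℝ) ^ ((2 : ℝ) / 3)⌉₊ G ^ 2) ≤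
    Ex n (pN lam n) (XT n ⌈δ * (n : ℝ) ^ ((2 : ℝ) / 3)⌉₊) +
      (Ex n (pN lam n) (XT n ⌈δ * (n : ℝ) ^ ((2 : ℝ) / 3)⌉₊)) ^ 2 * Real.exp (C * δ ^ 2)

/-- Large components. By Chebyshev `P(XT = 0) ≤ Var XT/(E XT)² ≤ 1/E XT + (e^(Cδ²) - 1) ≤ δ^(3/2)/c + e^(Cδ²) - 1`, small
for small `δ`; if `XT > 0` there is a component with at least `⌈δ n^(2/3)⌉` vertices. -/
def S_BIG : Prop := ∀ lam ε : ℝ, 0 < ε → ∃ δ : ℝ, 0 < δ ∧ ∀ᶠ n : ℕ in atTop,
  Pr n (pN lam n) (fun G => ∀ v, ((comp G v).card : ℝ) < δ * (n : ℝ) ^ ((2 : ℝ) / 3)) ≤ ε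

/-- `n τ → ∞`: `n (1 + (n-1) τ) = E Σ_v |comp G v| ≥ E |largest|² ≥ (1/2) (δ n^(2/3))²` by `S_BIG` with `ε = 1/2` and
`S_TAU`, so `n τ ≥ δ² n^(1/3)/2 - 1`. -/
def S_LOW : Prop := ∀ lam : ℝ, Tendsto (fun n : ℕ => (n : ℝ) * tau n (pN lam n)) atTop atTop

/-! ### G. The ball in the limit -/

/-- `BallIso F u G v r` forces `F` connected with all distances from `u` at most `r`, and `|∂B_r(v)| = #{a | dist u a = r}`
(the isomorphism of `F` with the induced graph on the ball; geodesics from `v` to vertices of the ball stay in the ball, so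
distances from the root agree). Conversely transport. -/
def S_ISO : Prop := ∀ (n k : ℕ) (F : SimpleGraph (Fin k)) (u : Fin k) (r : ℕ) (G : SimpleGraph (Fin n)) (v : Fin n),
  BallIso F u G v r → F.Connected ∧ (∀ a, F.dist u a ≤ r) ∧
    (sph G v r).card = (univ.filter fun a => F.dist u a = r).card

/-- Probability of a ball. Let `F` be connected with all distances from `u` at most `r`, `k ≤ n`. The witnesses are the
injective `φ : Fin k → Fin n`, `φ u = v` (there are `(n-1)(n-2)..(n-k+1) = (n-1).descFactorial (k-1)` such maps); `φ` is a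
witness for `G` iff `G` has on the pairs inside `S = φ(Fin k)` the edges of `F` and no edges between `φ(F°)` and the
outside of `S`, `F° = {a | dist u a < r}` (`S_DET`-type argument, `1 ≤ r`): a prescribed configuration, probability
`p^(e(F)) (1-p)^(C(k,2) - e(F) + |F°|(n-k))` (`S_CONF`). For each `G` the number of witnesses is `0` or `autC F u`. So
`autC · Pr(BallIso) = (n-1).descFactorial (k-1) · (that probability)`. -/
def S_BPR : Prop := ∀ (n k : ℕ) (p : ℝ) (F : SimpleGraph (Fin k)) (u : Fin k) (r : ℕ) (v : Fin n), 1 ≤ r → k ≤ n →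
  F.Connected → (∀ a, F.dist u a ≤ r) →
  (autC F u : ℝ) * Pr n p (fun G => BallIso F u G v r) = ((n - 1).descFactorial (k - 1) : ℝ) *
    (p ^ F.edgeFinset.card * (1 - p) ^ (k.choose 2 - F.edgeFinset.card +
      (univ.filter fun a => F.dist u a < r).card * (n - k)))

/-- Limit of `aN`: by `S_ISO` `aN = |∂F| Pr(BallIso)` or `0`; by `S_BPR` the limit is
`lim n^(k-1) p^(e(F)) (1-p)^(|F°| n) / autC`, `e(F) ≥ k - 1` with equality iff `F` is a tree
(`SimpleGraph.IsTree.card_edgeFinset`, `isTree_iff_connected_and_card`); `n p → 1`, `(1-p)^(n) → e^(-1)`. -/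
def S_KLIM : Prop := ∀ (k : ℕ) (F : SimpleGraph (Fin k)) (u : Fin k) (r : ℕ) (p : ℕ → ℝ), 1 ≤ r →
  Tendsto (fun n : ℕ => (n : ℝ) * p n) atTop (𝓝 1) →
  Tendsto (fun n : ℕ => aN F u r n (p n)) atTop (𝓝 (Kval F u r))

/-! ### H. The Kesten tree -/

/-- admissible labellings of the rooted tree `(F, u)` by words: the root gets the empty word, every other vertex gets
`i :: w` where `w` is the word of its parent, and the children of each vertex get different `i`'s, which fill `{0, .., c-1}` -/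
def Lab {k : ℕ} (F : SimpleGraph (Fin k)) (u : Fin k) (φ : Fin k → List ℕ) : Prop :=
  φ u = [] ∧ Function.Injective φ ∧ (∀ a b, F.Adj a b ↔ ((∃ i, φ a = i :: φ b) ∨ ∃ i, φ b = i :: φ a)) ∧
  (∀ a, a ≠ u → ∃ b i, F.Adj a b ∧ φ a = i :: φ b) ∧
  ∀ a i j, i < j → (∃ b, φ b = j :: φ a) → ∃ b, φ b = i :: φ a

/-- number of children -/
def nch {k : ℕ} (F : SimpleGraph (Fin k)) (u a : Fin k) : ℕ :=
  (univ.filter fun b => F.Adj a b ∧ F.dist u b = F.dist u a + 1).card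

/-- Witnesses. Let `F` be a tree with distances from `u` at most `r`. `φ` is a witness for `BallIso F u (kTree X) [] r` iff
it is an admissible labelling and `kids X (φ a) = nch F u a` for all `a` with `dist u a < r`. (Distance of a word of the tree
from `[]` is its length: `kTree X` is a tree-like graph, a vertex `w ∈ T` is joined to `[]` by the path of its suffixes; words
outside the tree are isolated.) -/
def S_WIT : Prop := ∀ (k : ℕ) (F : SimpleGraph (Fin k)) (u : Fin k) (r : ℕ) (X : List ℕ → ℕ) (φ : Fin k → List ℕ),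
  F.IsTree → (∀ a, F.dist u a ≤ r) →
  ((Function.Injective φ ∧ φ u = [] ∧
    (∀ w, (∃ a, φ a = w) ↔ ((kTree X).Reachable [] w ∧ (kTree X).dist [] w ≤ r)) ∧
    ∀ a b, F.Adj a b ↔ (kTree X).Adj (φ a) (φ b)) ↔
  (Lab F u φ ∧ ∀ a, F.dist u a < r → kids X (φ a) = nch F u a))

/-- If the ball of the Kesten tree is isomorphic to `(F, u)` then `F` is a tree with all distances from `u` at most `r` (the
graph `kTree X` has no cycle: the longest word on a cycle would have two different parents; balls of trees are connected). -/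
def S_KT0 : Prop := ∀ (k : ℕ) (F : SimpleGraph (Fin k)) (u : Fin k) (r : ℕ) (X : List ℕ → ℕ),
  BallIso F u (kTree X) [] r → F.IsTree ∧ ∀ a, F.dist u a ≤ r

/-- Probability of one labelling: independent coordinates (`Measure.infinitePi`, finitely many coordinates `φ a`,
`dist u a < r`, all different), `P(X(w) = c) = e^(-1)/c!`, and for the zero word `P(X(w) + 1 = c) = e^(-1) c/c!` (both sides
`0` for `c = 0`). -/
def S_KPR : Prop := ∀ (k : ℕ) (F : SimpleGraph (Fin k)) (u : Fin k) (r : ℕ) (φ : Fin k → List ℕ),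
  Function.Injective φ →
  (kLaw {X | ∀ a, F.dist u a < r → kids X (φ a) = nch F u a}).toReal =
    ∏ a ∈ univ.filter (fun a => F.dist u a < r),
      (Real.exp (-1) / (nch F u a).factorial * if (∀ i ∈ φ a, i = 0) then (nch F u a : ℝ) else 1)

/-- Counting. For a tree `F` with distances at most `r` the set of admissible labellings is finite and
`Σ_φ Π_(dist u a < r, φ a a zero word) nch a = |∂F| Π_a (nch a)!`, `∂F = {a | dist u a = r}`.
A labelling is a choice, for every vertex `a`, of a bijection of its children with `{0..nch a - 1}` (`Π (nch a)!` of them).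
The vertices with zero words form a path `u = a_0, a_1, ...` (first children) that ends at a vertex without children; if it
ends before distance `r` the product has a factor `0`. For a fixed `b ∈ ∂F` with path `a_0, .., a_r = b` the number of
labellings with `φ b` a zero word is `Π_(i<r) (nch a_i - 1)! Π_(others) (nch a)!`, so the sum is `Σ_(b ∈ ∂F) Π_a (nch a)!`.
(Vertices at distance `r` have no children: `nch = 0`, `0! = 1`.) -/
def S_COUNT : Prop := ∀ (k : ℕ) (F : SimpleGraph (Fin k)) (u : Fin k) (r : ℕ), F.IsTree → (∀ a, F.dist u a ≤ r) →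
  ∃ L : Finset (Fin k → List ℕ), (∀ φ, φ ∈ L ↔ Lab F u φ) ∧
    ∑ φ ∈ L, ∏ a ∈ univ.filter (fun a => F.dist u a < r), (if (∀ i ∈ φ a, i = 0) then (nch F u a : ℝ) else 1) =
      ((univ.filter fun a => F.dist u a = r).card : ℝ) *
        ∏ a ∈ univ.filter (fun a => F.dist u a < r), ((nch F u a).factorial : ℝ)

/-- The law of the ball of the Kesten tree. If `F` is not a tree or has a distance `> r`: both sides `0` (`S_KT0`).
Otherwise for each `X` the number of witnesses is `0` or `autC F u` (two witnesses differ by an automorphism of `(F,u)`), so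
`autC · P(BallIso) = Σ_(φ ∈ L) P(φ is a witness)`, and `S_WIT`, `S_KPR`, `S_COUNT` give
`e^(-|F°|) Σ_φ Π.. / Π (nch a)! = |∂F| e^(-|F°|)`. (The events are measurable: finitely many coordinates.) -/
def S_KLAW : Prop := ∀ (k : ℕ) (F : SimpleGraph (Fin k)) (u : Fin k) (r : ℕ),
  (kLaw {X | BallIso F u (kTree X) [] r}).toReal = Kval F u r

/-! ### I. Conclusion -/

/-- Second moment over components: `Σ_C (Σ_(v ∈ C) h(v))² = Σ_(v,w) 1(v ↔ w) h(v) h(w)`, `h = 1_F - a`, `|h| ≤ 2` eventually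
(`a → Kval`, bounded; the diagonal terms contribute at most `n (1 + |a|)²`), so by `S_SQ`, `S_UP`, `S_LOW`, `S_KLIM` it is
`≤ C' n + n² ε τ ≤ ε' n^(4/3)` for large `n`. Hence for any `C = comp G v`: `Ex (max over components) ≤ ε' n^(4/3)`. -/
def S_VAR : Prop := ∀ (lam : ℝ) (k : ℕ) (F : SimpleGraph (Fin k)) (u : Fin k) (r : ℕ), 1 ≤ r → ∀ ε : ℝ, 0 < ε →
  ∀ᶠ n : ℕ in atTop, Ex n (pN lam n) (fun G => ∑ v : Fin n, ∑ w : Fin n, ind (G.Reachable v w) *
    ((ind (BallIso F u G v r) - aN F u r n (pN lam n)) * (ind (BallIso F u G w r) - aN F u r n (pN lam n)))) ≤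
    ε * (n : ℝ) ^ ((4 : ℝ) / 3)

end Pool.Agent.Q80.KT
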