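import Mathlib
import Pool.Agent.Q287.SR.Cyl

/-!
# The largest critical Erdős–Rényi component: definitions

`Pool.Agent.Q287.SR.Ex n p f` is the expectation of `f` under `G(n, p)` on the vertex set `Fin n`.
-/

open Finset MeasureTheory Filter Topology
open scoped Classical ENNReal NNReal

noncomputable section

namespace Pool.Agent.Q80.KT

open Pool.Agent.Q287.SR

/-- indicator of a proposition -/
def ind (P : Prop) : ℝ := if P then 1 else 0

/-- probability of an event under `G(n, p)` -/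
def Pr (n : ℕ) (p : ℝ) (A : SimpleGraph (Fin n) → Prop) : ℝ := Ex n p fun G => ind (A G)

/-- `f` depends only on the edges in `D` -/
def DepOn {n : ℕ} (D : Set (Sym2 (Fin n))) (f : SimpleGraph (Fin n) → ℝ) : Prop :=
  ∀ G G' : SimpleGraph (Fin n), (∀ e ∈ D, (e ∈ G.edgeSet ↔ e ∈ G'.edgeSet)) → f G = f G'

/-- the ball of radius `r` -/
def ball {n : ℕ} (G : SimpleGraph (Fin n)) (v : Fin n) (r : ℕ) : Finset (Fin n) :=
  univ.filter fun w => G.Reachable v w ∧ G.dist v w ≤ r

/-- the sphere of radius `r` -/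
def sph {n : ℕ} (G : SimpleGraph (Fin n)) (v : Fin n) (r : ℕ) : Finset (Fin n) :=
  univ.filter fun w => G.Reachable v w ∧ G.dist v w = r

/-- the vertex set of the component of `v` -/
def comp {n : ℕ} (G : SimpleGraph (Fin n)) (v : Fin n) : Finset (Fin n) :=
  univ.filter fun w => G.Reachable v w

/-- The rooted ball of radius `r` around `v` in `G` is isomorphic to the rooted graph `(F, u)`. -/
def BallIso {k : ℕ} (F : SimpleGraph (Fin k)) (u : Fin k) {V : Type} (G : SimpleGraph V) (v : V) (r : ℕ) : Prop :=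
  ∃ φ : Fin k → V, Function.Injective φ ∧ φ u = v ∧
    (∀ w, (∃ a, φ a = w) ↔ (G.Reachable v w ∧ G.dist v w ≤ r)) ∧ ∀ a b, F.Adj a b ↔ G.Adj (φ a) (φ b)

/-- there is a path from `x` to `y` with all vertices in `U` -/
def RU {n : ℕ} (U : Set (Fin n)) (G : SimpleGraph (Fin n)) (x y : Fin n) : Prop :=
  x ∈ U ∧ Relation.ReflTransGen (fun a b => G.Adj a b ∧ a ∈ U ∧ b ∈ U) x y

/-- the probability that two given vertices are connected -/
def tau (n : ℕ) (p : ℝ) : ℝ :=
  if h : 2 ≤ n then Pr n p fun G => G.Reachable ⟨0, by omega⟩ ⟨1, by omega⟩ else 0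

/-- `f` is a function of the ball of radius `r` around `v` -/
def BM {n : ℕ} (v : Fin n) (r : ℕ) (f : SimpleGraph (Fin n) → ℝ) : Prop :=
  ∀ G G' : SimpleGraph (Fin n), ball G v r = ball G' v r → ball G v (r - 1) = ball G' v (r - 1) →
    (∀ a ∈ ball G v r, ∀ b ∈ ball G v r, (G.Adj a b ↔ G'.Adj a b)) → f G = f G'

/-- the pairs that are explored when the balls of radius `r` and `r - 1` are `S` and `S'` -/
def DS {n : ℕ} (S S' : Finset (Fin n)) : Set (Sym2 (Fin n)) :=
  {e | (∀ a ∈ e, a ∈ S) ∨ ∃ a ∈ e, a ∈ S'}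

/-- `E[1(B_r(v) ≅ (F, u)) |∂B_r(v)|]`, `v` the first vertex -/
def aN {k : ℕ} (F : SimpleGraph (Fin k)) (u : Fin k) (r n : ℕ) (p : ℝ) : ℝ :=
  if h : 1 ≤ n then Ex n p fun G => ind (BallIso F u G ⟨0, by omega⟩ r) * (sph G ⟨0, by omega⟩ r).card else 0

/-- the vertices reached from the active set `A` through the neutral set `U` -/
def rch {n : ℕ} (A U : Finset (Fin n)) (G : SimpleGraph (Fin n)) : Finset (Fin n) :=
  univ.filter fun w => ∃ x ∈ A, RU (↑(A ∪ U)) G x w

/-- `S` is the vertex set of a component of `G` that is a tree -/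
def TreeComp {n : ℕ} (G : SimpleGraph (Fin n)) (S : Finset (Fin n)) : Prop :=
  (G.induce (S : Set (Fin n))).IsTree ∧ ∀ a ∈ S, ∀ b, b ∉ S → ¬ G.Adj a b

/-- number of tree components of size `j`, summed over `k ≤ j ≤ 2 k` -/
def XT (n k : ℕ) (G : SimpleGraph (Fin n)) : ℝ :=
  ∑ S : Finset (Fin n), if k ≤ S.card ∧ S.card ≤ 2 * k then ind (TreeComp G S) else 0

/-- the critical window -/
def pN (lam : ℝ) (n : ℕ) : ℝ := 1 / (n : ℝ) + lam / (n : ℝ) ^ ((4 : ℝ) / 3)

/-- the number of automorphisms of the rooted graph `(F, u)` -/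
def autC {k : ℕ} (F : SimpleGraph (Fin k)) (u : Fin k) : ℕ :=
  (univ.filter fun σ : Equiv.Perm (Fin k) => σ u = u ∧ ∀ a b, F.Adj (σ a) (σ b) ↔ F.Adj a b).card

/-- the limiting weight of `(F, u)` -/
def Kval {k : ℕ} (F : SimpleGraph (Fin k)) (u : Fin k) (r : ℕ) : ℝ :=
  if F.IsTree ∧ ∀ a, F.dist u a ≤ r then
    ((univ.filter fun a => F.dist u a = r).card : ℝ) * Real.exp (-((univ.filter fun a => F.dist u a < r).card : ℝ)) /
      autC F u
  else 0

/-! ### The infinite Kesten tree

Vertices are words `[i_l, ..., i_1]` (the last step first); the children of `w` are the words `i :: w`,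
`i < kids X w`. The words `[0, ..., 0]` form the infinite ray. `X w` are independent Poisson(1) variables. -/

/-- the number of children of `w` -/
def kids (X : List ℕ → ℕ) (w : List ℕ) : ℕ := X w + if (∀ i ∈ w, i = 0) then 1 else 0

/-- the word belongs to the tree -/
def InT (X : List ℕ → ℕ) : List ℕ → Prop
  | [] => True
  | i :: w => InT X w ∧ i < kids X w

/-- the Kesten tree as a graph on the set of words (words outside of the tree are isolated) -/
def kTree (X : List ℕ → ℕ) : SimpleGraph (List ℕ) where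
  Adj a b := InT X a ∧ InT X b ∧ ((∃ i, a = i :: b) ∨ ∃ i, b = i :: a)
  symm := ⟨fun a b h => ⟨h.2.1, h.1, h.2.2.symm⟩⟩
  loopless := ⟨fun a h => by
    rcases h.2.2 with ⟨i, hi⟩ | ⟨i, hi⟩ <;> exact absurd (congrArg List.length hi) (by simp)⟩

/-- the law of the family `X` -/
def kLaw : Measure (List ℕ → ℕ) := Measure.infinitePi fun _ => ProbabilityTheory.poissonMeasure 1

end Pool.Agent.Q80.KT
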